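import Pool.Agent.H65.Coarse

set_option autoImplicit false

open Pool.Agent.H65 CoarseDefs

theorem Pool.Agent.Results.MP_59b615_al.NoIso.result (Q : Set ℕ) (hQ : ∀ p ∈ Q, p.Prime)
    (hne : Q.Nonempty) (S : Set ℤ) : ¬ ∃ f : ℤ → ℤ, IsCoarseIso (UBQ Q) (UBS S) f := by
  rintro ⟨f, hf, _, g, hg, hc, _⟩
  exact Coarse.main Q hQ hne S f g hf hg hc
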